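import Pool.Agent.Work.MP_efd9e3_ag.Bg.Hf
import Pool.Agent.Work.MP_efd9e3_ag.Gp.VDesc

/-! MODULE BiDim (MP_efd9e3_ag/Bg), helper69.  Families of forms on the quotients by the points of a hyperplane. -/

set_option autoImplicit false

open MvPolynomial

namespace Geproci

variable {K : Type*} [Field K] {n j α : ℕ} {κ : Type*}

/-- the exponents of the monomials of degree `j` -/
def mon (N j : ℕ) : Finset (Fin N →₀ ℕ) := Finset.finsuppAntidiag Finset.univ j

theorem mem_mon (N j : ℕ) (a : Fin N →₀ ℕ) : a ∈ mon N j ↔ ∑ i, a i = j := by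
  simp [mon, Finset.mem_finsuppAntidiag]

theorem card_mon {N : ℕ} (hN : 1 ≤ N) (j : ℕ) : (mon N j).card = (N - 1 + j).choose j := by
  rw [mon, Finset.card_finsuppAntidiag_nat_eq_choose, Finset.card_univ, Fintype.card_fin]
  congr 1
  omega

/-- the form with the coefficients `F a w` -/
noncomputable def fw (F : mon (n+1) j → MvPolynomial (Fin n) K) (w : Fin n → K) :
    MvPolynomial (Fin (n+1)) K := ∑ a, monomial a.1 (eval w (F a))

theorem coeff_fw (F : mon (n+1) j → MvPolynomial (Fin n) K) (w : Fin n → K) (b : Fin (n+1) →₀ ℕ) :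
    coeff b (fw F w) = if h : b ∈ mon (n+1) j then eval w (F ⟨b, h⟩) else 0 := by
  classical
  unfold fw
  rw [coeff_sum]
  split_ifs with h
  · rw [Finset.sum_eq_single ⟨b, h⟩]
    · rw [coeff_monomial, if_pos rfl]
    · intro c _ hc
      rw [coeff_monomial, if_neg]
      intro hcb
      exact hc (Subtype.ext hcb)
    · intro hc
      exact absurd (Finset.mem_univ _) hc
  · refine Finset.sum_eq_zero fun c _ => ?_
    rw [coeff_monomial, if_neg]
    intro hcb
    apply h
    rw [← hcb]
    exact c.2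

theorem fw_hom (F : mon (n+1) j → MvPolynomial (Fin n) K) (w : Fin n → K) :
    (fw F w).IsHomogeneous j := by
  unfold fw
  refine IsHomogeneous.sum _ _ _ fun a _ => isHomogeneous_monomial _ ?_
  rw [Finsupp.degree_eq_sum]
  exact (mem_mon _ _ _).1 a.2

theorem eval_fw (F : mon (n+1) j → MvPolynomial (Fin n) K) (w : Fin n → K) (x : Fin (n+1) → K) :
    eval x (fw F w) = ∑ a, eval w (F a) * ∏ k, x k ^ (a.1 k) := by
  unfold fw
  rw [map_sum]
  refine Finset.sum_congr rfl fun a _ => ?_
  rw [eval_monomial, Finsupp.prod_fintype _ _ (fun i => pow_zero _)]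

theorem mon_add {N : ℕ} (b : Fin N →₀ ℕ) (hb : b ∈ mon N j) (k : Fin N) :
    b + Finsupp.single k 1 ∈ mon N (j+1) := by
  rw [mem_mon] at hb ⊢
  rw [sum_add_single, hb]

/-- the derivative in the direction `ψ w` -/
noncomputable def dOp (ψ : (Fin n → K) →ₗ[K] (Fin (n+1) → K)) :
    (mon (n+1) (j+1) → homogeneousSubmodule (Fin n) K α) →ₗ[K]
      (mon (n+1) j → homogeneousSubmodule (Fin n) K (α+1)) where
  toFun F b := ⟨∑ k, C ((b.1 k + 1 : ℕ) : K) * (compL ψ (X k) * (F ⟨b.1 + Finsupp.single k 1, mon_add _ b.2 k⟩).1), by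
    rw [mem_homogeneousSubmodule]
    refine IsHomogeneous.sum _ _ _ fun k _ => ?_
    have h1 : (compL ψ (X k) : MvPolynomial (Fin n) K).IsHomogeneous 1 := by
      rw [compL, aeval_X]
      exact IsHomogeneous.sum _ _ _ fun i _ => isHomogeneous_C_mul_X _ _
    have h2 := h1.mul ((mem_homogeneousSubmodule _ _).1 (F ⟨b.1 + Finsupp.single k 1, mon_add _ b.2 k⟩).2)
    have := (isHomogeneous_C (Fin n) ((b.1 k + 1 : ℕ) : K)).mul h2
    rwa [zero_add, add_comm 1 α] at this⟩
  map_add' F G := by
    funext b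
    apply Subtype.ext
    simp only [Pi.add_apply, Submodule.coe_add]
    rw [← Finset.sum_add_distrib]
    refine Finset.sum_congr rfl fun k _ => ?_
    ring
  map_smul' c F := by
    funext b
    apply Subtype.ext
    simp only [Pi.smul_apply, Submodule.coe_smul, RingHom.id_apply]
    rw [Finset.smul_sum]
    refine Finset.sum_congr rfl fun k _ => ?_
    rw [mul_smul_comm, mul_smul_comm]

/-- the evaluation at a vector -/
noncomputable def eOp (y : Fin (n+1) → K) :
    (mon (n+1) j → homogeneousSubmodule (Fin n) K α) →ₗ[K] homogeneousSubmodule (Fin n) K α :=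
  ∑ a : mon (n+1) j, (∏ k, y k ^ (a.1 k)) • LinearMap.proj a

theorem eOp_apply (y : Fin (n+1) → K) (F : mon (n+1) j → homogeneousSubmodule (Fin n) K α) (w : Fin n → K) :
    eval w (eOp y F).1 = eval y (fw (fun a => (F a).1) w) := by
  rw [eval_fw]
  unfold eOp
  rw [LinearMap.sum_apply, AddSubmonoidClass.coe_finsetSum, map_sum]
  refine Finset.sum_congr rfl fun a _ => ?_
  rw [LinearMap.smul_apply, LinearMap.proj_apply, Submodule.coe_smul, smul_eq_C_mul, map_mul, eval_C,
    mul_comm]

theorem exists_fam [Infinite K] (hn : 1 ≤ n) [Fintype κ] (ψ : (Fin n → K) →ₗ[K] (Fin (n+1) → K))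
    (y : κ → Fin (n+1) → K)
    (hnum : (mon (n+1) j).card * (mon n (α+1)).card + Fintype.card κ * (mon n α).card <
      (mon (n+1) (j+1)).card * (mon n α).card) :
    ∃ F : mon (n+1) (j+1) → MvPolynomial (Fin n) K, (∀ a, (F a).IsHomogeneous α) ∧
      (∃ w, fw F w ≠ 0) ∧ (∀ w, dirP (ψ w) (fw F w) = 0) ∧ (∀ k w, eval (y k) (fw F w) = 0) := by
  classical
  have hfin1 := finite_homog (K := K) (n := n) α
  have hfin2 := finite_homog (K := K) (n := n) (α+1)
  set Φ : (mon (n+1) (j+1) → homogeneousSubmodule (Fin n) K α) →ₗ[K]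
      (mon (n+1) j → homogeneousSubmodule (Fin n) K (α+1)) × (κ → homogeneousSubmodule (Fin n) K α) :=
    (dOp ψ).prod (LinearMap.pi fun k => eOp (y k)) with hΦ
  have h1 : Module.finrank K ((mon (n+1) j → homogeneousSubmodule (Fin n) K (α+1)) ×
      (κ → homogeneousSubmodule (Fin n) K α)) < Module.finrank K (mon (n+1) (j+1) → homogeneousSubmodule (Fin n) K α) := by
    rw [Module.finrank_prod, Module.finrank_pi_fintype, Module.finrank_pi_fintype, Module.finrank_pi_fintype]
    simp only [Finset.sum_const, Finset.card_univ, smul_eq_mul, Fintype.card_coe]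
    rw [finrank_homog hn, finrank_homog hn, ← card_mon hn, ← card_mon hn]
    exact hnum
  have h2 := LinearMap.ker_ne_bot_of_finrank_lt (f := Φ) h1
  obtain ⟨F, hF, hF0⟩ := (Submodule.ne_bot_iff _).1 h2
  rw [LinearMap.mem_ker] at hF
  have hFD : dOp ψ F = 0 := congrArg Prod.fst hF
  have hFE : (LinearMap.pi fun k => eOp (y k)) F = 0 := congrArg Prod.snd hF
  refine ⟨fun a => (F a).1, fun a => (F a).2, ?_, fun w => ?_, fun k w => ?_⟩
  · obtain ⟨a, ha⟩ : ∃ a, F a ≠ 0 := by
      by_contra hcon
      push Not at hcon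
      exact hF0 (funext hcon)
    obtain ⟨w, hw⟩ : ∃ w, eval w (F a).1 ≠ 0 := by
      by_contra hcon
      push Not at hcon
      exact ha (Subtype.ext (MvPolynomial.funext fun x => by rw [hcon x]; simp))
    refine ⟨w, fun h0 => hw ?_⟩
    have h3 := congrArg (coeff a.1) h0
    rw [coeff_fw, dif_pos a.2, coeff_zero] at h3
    exact h3
  · ext b
    rw [coeff_zero]
    unfold dirP
    rw [coeff_sum]
    simp only [coeff_C_mul, coeff_pderiv, coeff_fw]
    by_cases hb : b ∈ mon (n+1) j
    · have h3 := congrArg (fun q => eval w q.1) (congrFun hFD ⟨b, hb⟩)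
      simp only [dOp, LinearMap.coe_mk, AddHom.coe_mk, Pi.zero_apply, Submodule.coe_zero, map_zero,
        map_sum, map_mul, eval_C] at h3
      rw [← h3]
      refine Finset.sum_congr rfl fun k _ => ?_
      rw [dif_pos (mon_add b hb k), eval_compL, eval_X]
      push_cast
      ring
    · refine Finset.sum_eq_zero fun k _ => ?_
      rw [dif_neg, zero_mul, mul_zero]
      intro h4
      apply hb
      rw [mem_mon] at h4 ⊢
      rw [sum_add_single] at h4
      omega
  · have h3 := congrArg (fun q => eval w q.1) (congrFun hFE k)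
    simp only [LinearMap.pi_apply, Pi.zero_apply, Submodule.coe_zero, map_zero] at h3
    rw [eOp_apply] at h3
    exact h3

end Geproci
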