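import Pool.Agent.Work.MP_efd9e3_ag.Bg.BiDim
import Pool.Agent.Work.MP_efd9e3_ag.Co.LinPar
import Pool.Agent.Work.MP_efd9e3_ag.Gp.VDiv

/-! MODULE FtoA (MP_efd9e3_ag/Bg), helper69.  A family over a hyperplane gives an invariant bihomogeneous form. -/

set_option autoImplicit false

open MvPolynomial

namespace Geproci

variable {K : Type*} [Field K] {n j α : ℕ} {κ ι : Type*}

/-- a hyperplane, its parametrization and a projection -/
theorem hyp_par (l : Fin (n+1) → K) (hl : l ≠ 0) :
    ∃ (ψ : (Fin n → K) →ₗ[K] (Fin (n+1) → K)) (Q : (Fin (n+1) → K) →ₗ[K] (Fin n → K)),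
      (∀ w, ∑ k, l k * ψ w k = 0) ∧ (∀ w, Q (ψ w) = w) ∧ (∀ u, ∑ k, l k * u k = 0 → ψ (Q u) = u) := by
  classical
  let L : (Fin (n+1) → K) →ₗ[K] K := ∑ k, l k • LinearMap.proj k
  have hL : ∀ v, L v = ∑ k, l k * v k := by
    intro v
    simp [L, LinearMap.sum_apply]
  have hL0 : L ≠ 0 := by
    intro h
    apply hl
    funext k
    have h1 := hL (Pi.single k 1)
    rw [h, LinearMap.zero_apply] at h1
    simp [Pi.single_apply] at h1
    rw [Pi.zero_apply]
    exact h1.symm
  have hfin : Module.finrank K (Fin n → K) = Module.finrank K (LinearMap.ker L) := by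
    have h1 := LinearMap.finrank_range_add_finrank_ker L
    have h2 : Module.finrank K (LinearMap.range L) = 1 := by
      rw [LinearMap.range_eq_top.2 (LinearMap.surjective hL0), finrank_top, Module.finrank_self]
    rw [h2] at h1
    simp only [Module.finrank_fintype_fun_eq_card, Fintype.card_fin] at h1 ⊢
    omega
  let e : (Fin n → K) ≃ₗ[K] LinearMap.ker L := LinearEquiv.ofFinrankEq _ _ hfin
  set ψ := (LinearMap.ker L).subtype ∘ₗ e.toLinearMap with hψ
  have hinj : LinearMap.ker ψ = ⊥ := by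
    rw [LinearMap.ker_eq_bot, hψ]
    exact (Submodule.subtype_injective _).comp e.injective
  obtain ⟨Q, hQ⟩ := LinearMap.exists_leftInverse_of_injective ψ hinj
  have hQ' : ∀ w, Q (ψ w) = w := fun w => by
    rw [← LinearMap.comp_apply, hQ, LinearMap.id_apply]
  refine ⟨ψ, Q, fun w => ?_, hQ', fun u hu => ?_⟩
  · rw [← hL]
    exact LinearMap.mem_ker.1 (e w).2
  · have h1 : u ∈ LinearMap.ker L := by rw [LinearMap.mem_ker, hL, hu]
    have h2 : ψ (e.symm ⟨u, h1⟩) = u := by
      rw [hψ, LinearMap.comp_apply, LinearEquiv.coe_coe, LinearEquiv.apply_symm_apply]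
      rfl
    rw [← h2, hQ']

/-- the linear form in the first variables -/
noncomputable def Lp (l : Fin n → K) : MvPolynomial (Fin n ⊕ Fin n) K := ∑ k, C (l k) * X (Sum.inl k)

/-- the linear form in the second variables -/
noncomputable def Lx (l : Fin n → K) : MvPolynomial (Fin n ⊕ Fin n) K := ∑ k, C (l k) * X (Sum.inr k)

theorem bev_Lp (l p x : Fin n → K) : bev p x (Lp l) = ∑ k, l k * p k := by
  unfold bev Lp
  rw [map_sum]
  exact Finset.sum_congr rfl fun k _ => by rw [map_mul, eval_C, eval_X, Sum.elim_inl]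

theorem bev_Lx (l p x : Fin n → K) : bev p x (Lx l) = ∑ k, l k * x k := by
  unfold bev Lx
  rw [map_sum]
  exact Finset.sum_congr rfl fun k _ => by rw [map_mul, eval_C, eval_X, Sum.elim_inr]

theorem bev_pow (p x : Fin n → K) (A : MvPolynomial (Fin n ⊕ Fin n) K) (k : ℕ) :
    bev p x (A ^ k) = bev p x A ^ k := by
  unfold bev
  rw [map_pow]

theorem Lx_ne (l : Fin n → K) (hl : l ≠ 0) : Lx l ≠ 0 := by
  classical
  intro h
  apply hl
  funext k
  have h1 := bev_Lx l 0 (Pi.single k 1)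
  rw [h] at h1
  simp [bev, Pi.single_apply] at h1
  rw [Pi.zero_apply]
  exact h1.symm

theorem Lx_prime (l : Fin n → K) (hl : l ≠ 0) : Prime (Lx l) := by
  have h0 := Lx_ne l hl
  apply Irreducible.prime
  have h1 : (Lx l).IsHomogeneous 1 := IsHomogeneous.sum _ _ _ fun k _ => isHomogeneous_C_mul_X _ _
  apply irreducible_of_totalDegree_eq_one (h1.totalDegree h0)
  intro x hx
  rw [isUnit_iff_ne_zero]
  rintro rfl
  apply h0
  ext i
  rw [zero_dvd_iff.1 (hx i), coeff_zero]

theorem Lx_biH [Infinite K] (l : Fin n → K) (t : ℕ) : BiH 0 t (Lx l ^ t) := by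
  apply biH_of_scaling
  intro a b _ _ x y
  rw [bev_pow, bev_pow, bev_Lx, bev_Lx, pow_zero, one_mul, ← mul_pow, Finset.mul_sum]
  congr 1
  exact Finset.sum_congr rfl fun k _ => by ring

/-- the argument `Q (l(x) p - l(p) x)` -/
noncomputable def argQ (l : Fin (n+1) → K) (Q : (Fin (n+1) → K) →ₗ[K] (Fin n → K)) (p x : Fin (n+1) → K) :
    Fin n → K := Q (fun k => (∑ i, l i * x i) * p k - (∑ i, l i * p i) * x k)

/-- the polynomial substitution -/
noncomputable def subQ (l : Fin (n+1) → K) (Q : (Fin (n+1) → K) →ₗ[K] (Fin n → K)) :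
    MvPolynomial (Fin n) K →ₐ[K] MvPolynomial (Fin (n+1) ⊕ Fin (n+1)) K :=
  aeval fun i => ∑ k, C (Q (Pi.single k 1) i) * (Lx l * X (Sum.inl k) - Lp l * X (Sum.inr k))

theorem bev_subQ (l : Fin (n+1) → K) (Q : (Fin (n+1) → K) →ₗ[K] (Fin n → K)) (p x : Fin (n+1) → K)
    (q : MvPolynomial (Fin n) K) : bev p x (subQ l Q q) = eval (argQ l Q p x) q := by
  have h1 : ∀ i, bev p x (∑ k, C (Q (Pi.single k 1) i) * (Lx l * X (Sum.inl k) - Lp l * X (Sum.inr k))) =
      argQ l Q p x i := by
    intro i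
    unfold argQ
    conv_rhs => rw [pi_eq_sum_univ' (fun k => (∑ i, l i * x i) * p k - (∑ i, l i * p i) * x k)]
    rw [map_sum, Finset.sum_apply]
    have h2 : bev p x (∑ k, C (Q (Pi.single k 1) i) * (Lx l * X (Sum.inl k) - Lp l * X (Sum.inr k))) =
        ∑ k, bev p x (C (Q (Pi.single k 1) i) * (Lx l * X (Sum.inl k) - Lp l * X (Sum.inr k))) := by
      unfold bev
      rw [map_sum]
    rw [h2]
    refine Finset.sum_congr rfl fun k _ => ?_
    rw [map_smul, Pi.smul_apply, smul_eq_mul, bev_mul]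
    have h3 : bev p x (Lx l * X (Sum.inl k) - Lp l * X (Sum.inr k)) =
        bev p x (Lx l) * p k - bev p x (Lp l) * x k := by
      unfold bev
      rw [map_sub, map_mul, map_mul, eval_X, eval_X, Sum.elim_inl, Sum.elim_inr]
    rw [h3, bev_Lx, bev_Lp]
    unfold bev
    rw [eval_C]
    ring
  unfold subQ
  induction q using MvPolynomial.induction_on with
  | C a => simp [bev]
  | add a b ha hb =>
    have : ∀ A B : MvPolynomial (Fin (n+1) ⊕ Fin (n+1)) K, bev p x (A + B) = bev p x A + bev p x B := by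
      intro A B
      unfold bev
      rw [map_add]
    rw [map_add, this, ha, hb, map_add]
  | mul_X a k ha => rw [map_mul, bev_mul, ha, map_mul, aeval_X, h1, eval_X]

theorem exists_inv [CharZero K] (l : Fin (n+1) → K) (hl : l ≠ 0)
    (ψ : (Fin n → K) →ₗ[K] (Fin (n+1) → K)) (Q : (Fin (n+1) → K) →ₗ[K] (Fin n → K))
    (hψ : ∀ w, ∑ k, l k * ψ w k = 0) (hQ : ∀ w, Q (ψ w) = w) (hQ' : ∀ u, ∑ k, l k * u k = 0 → ψ (Q u) = u)
    (F : mon (n+1) j → MvPolynomial (Fin n) K) (hF : ∀ a, (F a).IsHomogeneous α)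
    (hF0 : ∃ w, fw F w ≠ 0) (hFi : ∀ w, dirP (ψ w) (fw F w) = 0)
    (y : ι → Fin (n+1) → K) (hy : ∀ i w, eval (y i) (fw F w) = 0) (hly : ∀ i, ∑ k, l k * y i k ≠ 0) :
    ∃ A : MvPolynomial (Fin (n+1) ⊕ Fin (n+1)) K, A ≠ 0 ∧ BiH α α A ∧ BInv A ∧ ∀ i, xp (y i) A = 0 := by
  classical
  have hinf : Infinite K := inferInstance
  set G : MvPolynomial (Fin (n+1) ⊕ Fin (n+1)) K :=
    ∑ a, subQ l Q (F a) * ∏ k, X (Sum.inr k) ^ (a.1 k) with hG
  set G' : MvPolynomial (Fin (n+1) ⊕ Fin (n+1)) K :=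
    ∑ a, subQ l Q (F a) * ∏ k, X (Sum.inl k) ^ (a.1 k) with hG'
  have eG : ∀ p x, bev p x G = eval x (fw F (argQ l Q p x)) := by
    intro p x
    rw [eval_fw]
    have h1 : bev p x G = ∑ a, bev p x (subQ l Q (F a) * ∏ k, X (Sum.inr k) ^ (a.1 k)) := by
      rw [hG]
      unfold bev
      rw [map_sum]
    rw [h1]
    refine Finset.sum_congr rfl fun a _ => ?_
    rw [bev_mul, bev_subQ]
    congr 1
    unfold bev
    rw [map_prod]
    exact Finset.prod_congr rfl fun k _ => by rw [map_pow, eval_X, Sum.elim_inr]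
  have eG' : ∀ p x, bev p x G' = eval p (fw F (argQ l Q p x)) := by
    intro p x
    rw [eval_fw]
    have h1 : bev p x G' = ∑ a, bev p x (subQ l Q (F a) * ∏ k, X (Sum.inl k) ^ (a.1 k)) := by
      rw [hG']
      unfold bev
      rw [map_sum]
    rw [h1]
    refine Finset.sum_congr rfl fun a _ => ?_
    rw [bev_mul, bev_subQ]
    congr 1
    unfold bev
    rw [map_prod]
    exact Finset.prod_congr rfl fun k _ => by rw [map_pow, eval_X, Sum.elim_inl]
  -- the two substitutions
  have hu : ∀ p x : Fin (n+1) → K, ψ (argQ l Q p x) =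
      fun k => (∑ i, l i * x i) * p k - (∑ i, l i * p i) * x k := by
    intro p x
    apply hQ'
    have : ∀ k, l k * ((∑ i, l i * x i) * p k - (∑ i, l i * p i) * x k) =
        (∑ i, l i * x i) * (l k * p k) - (∑ i, l i * p i) * (l k * x k) := fun k => by ring
    rw [Finset.sum_congr rfl fun k _ => this k, Finset.sum_sub_distrib, ← Finset.mul_sum, ← Finset.mul_sum]
    ring
  have hid : Lp l ^ j * G = Lx l ^ j * G' := by
    apply bev_ext
    intro p x
    rw [bev_mul, bev_mul, bev_pow, bev_pow, bev_Lp, bev_Lx, eG, eG']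
    rw [← eval_smul_hom (fw_hom F _), ← eval_smul_hom (fw_hom F _)]
    have h1 := dirP_inv (ψ (argQ l Q p x)) (fun k => (∑ i, l i * x i) * p k) (fw F (argQ l Q p x)) (hFi _) (-1)
    rw [← h1, hu]
    congr 2
    funext k
    ring
  have hdvd : Lx l ^ j ∣ G := by
    apply (Lx_prime l hl).pow_dvd_of_dvd_mul_left j (a := Lp l ^ j)
    · rintro ⟨b, hb⟩
      obtain ⟨k, hk⟩ : ∃ k, l k ≠ 0 := by
        by_contra hcon
        push Not at hcon
        exact hl (funext hcon)
      have h1 := congrArg (bev (Pi.single k 1) 0) hb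
      rw [bev_mul, bev_pow, bev_Lp, bev_Lx] at h1
      simp [Pi.single_apply] at h1
      exact hk h1.1
    · exact ⟨G', hid⟩
  obtain ⟨A, hA⟩ := hdvd
  have hLj : Lx l ^ j ≠ 0 := pow_ne_zero _ (Lx_ne l hl)
  have hargs : ∀ (a b : K) (p x : Fin (n+1) → K),
      argQ l Q (fun k => a * p k) (fun k => b * x k) = (a * b) • argQ l Q p x := by
    intro a b p x
    unfold argQ
    rw [← map_smul]
    congr 1
    funext k
    rw [Pi.smul_apply, smul_eq_mul]
    have e1 : ∑ i, l i * (b * x i) = b * ∑ i, l i * x i := by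
      rw [Finset.mul_sum]
      exact Finset.sum_congr rfl fun i _ => by ring
    have e2 : ∑ i, l i * (a * p i) = a * ∑ i, l i * p i := by
      rw [Finset.mul_sum]
      exact Finset.sum_congr rfl fun i _ => by ring
    rw [e1, e2]
    ring
  have hGh : BiH α (α + j) G := by
    apply biH_of_scaling
    intro a b _ _ p x
    rw [eG, eG, hargs, eval_smul_hom (fw_hom F _), eval_fw, eval_fw, Finset.mul_sum, Finset.mul_sum]
    refine Finset.sum_congr rfl fun c _ => ?_
    have := eval_smul_hom (hF c) (a * b) (argQ l Q p x)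
    rw [show (a * b) • argQ l Q p x = fun k => (a * b) * argQ l Q p x k from rfl, this]
    ring
  have hGi : Eop G = 0 := by
    have : BInv G := bInv_of fun t x y => by
      rw [eG, eG]
      congr 2
      unfold argQ
      congr 1
      funext k
      have e1 : ∑ i, l i * (x i + t * y i) = ∑ i, l i * x i + t * ∑ i, l i * y i := by
        rw [Finset.mul_sum, ← Finset.sum_add_distrib]
        exact Finset.sum_congr rfl fun i _ => by ring
      rw [e1]
      ring
    exact this
  have hG0 : G ≠ 0 := by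
    obtain ⟨w, hw⟩ := hF0
    obtain ⟨x, hx⟩ : ∃ x, eval x (linf l * fw F w) ≠ 0 := by
      by_contra hcon
      push Not at hcon
      exact mul_ne_zero (linf_ne_zero l hl) hw (MvPolynomial.funext fun x => by rw [hcon x, map_zero])
    rw [map_mul, eval_linf] at hx
    intro h0
    have h1 := eG (ψ w) x
    rw [h0, bev, map_zero] at h1
    have h2 : argQ l Q (ψ w) x = fun k => (∑ i, l i * x i) * w k := by
      unfold argQ
      rw [hψ w]
      have : (fun k => (∑ i, l i * x i) * ψ w k - 0 * x k) = (∑ i, l i * x i) • ψ w := by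
        funext k
        rw [Pi.smul_apply, smul_eq_mul]
        ring
      rw [this, map_smul, hQ]
      rfl
    have h3 : eval x (fw F (argQ l Q (ψ w) x)) = (∑ i, l i * x i) ^ α * eval x (fw F w) := by
      rw [h2, eval_fw, eval_fw, Finset.mul_sum]
      refine Finset.sum_congr rfl fun c _ => ?_
      rw [eval_smul_hom (hF c)]
      ring
    rw [h3] at h1
    exact mul_ne_zero (pow_ne_zero α (left_ne_zero_of_mul hx)) (right_ne_zero_of_mul hx) h1.symm
  have hA0 : A ≠ 0 := by
    rintro rfl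
    rw [mul_zero] at hA
    exact hG0 hA
  have hAh : BiH α α A := by
    obtain ⟨α₁, β₁, α₂, β₂, h1, h2, h3, h4⟩ := bi_mul (Lx l ^ j) A (by rw [← hA]; exact hGh) hLj hA0
    have e1 : α₁ = 0 := wh_uniq _ _ _ _ hLj h1.1 (Lx_biH l j).1
    have e2 : β₁ = j := wh_uniq _ _ _ _ hLj h1.2 (Lx_biH l j).2
    have e3 : α₂ = α := by omega
    have e4 : β₂ = α := by omega
    rw [e3, e4] at h2
    exact h2
  refine ⟨A, hA0, hAh, ?_, fun i => ?_⟩
  · have h1 : Eop (Lx l ^ j) = 0 := by
      unfold Eop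
      exact Finset.sum_eq_zero fun k _ => by rw [(Lx_biH l j).inl_zero, mul_zero]
    have h2 : Eop (Lx l ^ j * A) = Eop (Lx l ^ j) * A + Lx l ^ j * Eop A := by
      unfold Eop
      rw [Finset.sum_mul, Finset.mul_sum, ← Finset.sum_add_distrib]
      refine Finset.sum_congr rfl fun k _ => ?_
      rw [Derivation.leibniz, smul_eq_mul, smul_eq_mul]
      ring
    rw [← hA, hGi, h1, zero_mul, zero_add] at h2
    exact (mul_eq_zero.1 h2.symm).resolve_left hLj
  · apply MvPolynomial.funext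
    intro p
    rw [eval_xp, map_zero]
    have h1 := eG p (y i)
    rw [hy i, hA, bev_mul, bev_pow, bev_Lx] at h1
    exact (mul_eq_zero.1 h1).resolve_left (pow_ne_zero _ (hly i))

end Geproci
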