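import Pool.Agent.Work.MP_efd9e3_ag.Bg.BoxR

/-! MODULE Num (MP_efd9e3_ag/Bg), helper69.  The numerical inequality for `n ≥ 72`. -/

set_option autoImplicit false

namespace Geproci

variable {n : ℕ}

theorem prod_le_pow {ι : Type*} (S : Finset ι) (Q : ι → ℝ) (hQ : ∀ i ∈ S, Q i ≤ 1) (q : ℝ) (hq : q < 1)
    (h : S.card * q ≤ ∑ i ∈ S, Q i) : ∏ i ∈ S, (1 - Q i) ≤ (1 - q) ^ S.card := by
  have hq' : 0 < 1 - q := by linarith
  calc ∏ i ∈ S, (1 - Q i) ≤ ∏ i ∈ S, ((1 - q) * Real.exp (-((Q i - q) / (1 - q)))) := by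
        refine Finset.prod_le_prod (fun i hi => by linarith [hQ i hi]) fun i _ => ?_
        have h1 := Real.add_one_le_exp (-((Q i - q) / (1 - q)))
        calc 1 - Q i = (1 - q) * (-((Q i - q) / (1 - q)) + 1) := by field_simp; ring
          _ ≤ _ := mul_le_mul_of_nonneg_left h1 hq'.le
    _ = (1 - q) ^ S.card * Real.exp (∑ i ∈ S, -((Q i - q) / (1 - q))) := by
        rw [Finset.prod_mul_distrib, Finset.prod_const, Real.exp_sum]
    _ ≤ (1 - q) ^ S.card * 1 := by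
        refine mul_le_mul_of_nonneg_left ?_ (by positivity)
        rw [Real.exp_le_one_iff, Finset.sum_neg_distrib, ← Finset.sum_div, Finset.sum_sub_distrib,
          Finset.sum_const, nsmul_eq_mul, neg_nonpos]
        exact div_nonneg (by linarith) hq'.le
    _ = _ := mul_one _

theorem pow_incr (k : ℕ) (hk : 70 ≤ k) : (299 : ℝ) / 10000 ≤ (1 - 27 / 8 / (k : ℝ)) ^ (k + 1) := by
  induction k, hk using Nat.le_induction with
  | base => norm_num
  | succ k hk ih =>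
    have hk' : (70 : ℝ) ≤ k := by exact_mod_cast hk
    refine ih.trans ?_
    have hpos : (0 : ℝ) < k - 27 / 8 := by linarith
    have hpos' : (0 : ℝ) < (k : ℝ) + 1 := by linarith
    have hk0 : (0 : ℝ) < k := by linarith
    obtain ⟨x, hx, hx0⟩ : ∃ x : ℝ, x = 27 / 8 / ((k - 27 / 8) * (k + 1)) ∧ 0 ≤ x :=
      ⟨_, rfl, by positivity⟩
    have hy : ∃ y : ℝ, y = (k : ℝ) - 27 / 8 := ⟨_, rfl⟩
    obtain ⟨y, hy⟩ := hy
    have hy0 : 0 < y := by rw [hy]; exact hpos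
    have hky : (k : ℝ) = y + 27 / 8 := by linarith
    have h1 : (1 : ℝ) - 27 / 8 / ((k + 1 : ℕ) : ℝ) = (1 - 27 / 8 / (k : ℝ)) * (1 + x) := by
      push_cast
      rw [hx, ← hy]
      have e1 : (1 : ℝ) - 27 / 8 / k = y / k := by
        rw [eq_div_iff hk0.ne', sub_mul, div_mul_cancel₀ _ hk0.ne', one_mul, hy]
      have e2 : (1 : ℝ) + 27 / 8 / (y * (k + 1)) = (y * (k + 1) + 27 / 8) / (y * (k + 1)) := by
        have : y * ((k : ℝ) + 1) ≠ 0 := by positivity
        rw [eq_div_iff this, add_mul, div_mul_cancel₀ _ this, one_mul]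
      have e3 : (1 : ℝ) - 27 / 8 / (k + 1) = (k + 1 - 27 / 8) / (k + 1) := by
        rw [eq_div_iff hpos'.ne', sub_mul, div_mul_cancel₀ _ hpos'.ne', one_mul]
      rw [e1, e2, e3, div_mul_div_comm, div_eq_div_iff hpos'.ne' (by positivity)]
      rw [hky]
      ring
    have hb : (1 : ℝ) + 27 / 8 / (k - 27 / 8) ≤ (1 + x) ^ (k + 1) := by
      have h2 := one_add_mul_le_pow (a := x) (by linarith) (k + 1)
      refine le_trans (le_of_eq ?_) h2
      push_cast
      rw [hx, ← hy]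
      field_simp
    have h0 : (0 : ℝ) ≤ 1 - 27 / 8 / k := by
      rw [sub_nonneg, div_le_one hk0]
      linarith
    have h5 : (1 : ℝ) ≤ (1 + 27 / 8 / (k - 27 / 8)) * (1 - 27 / 8 / ((k + 1 : ℕ) : ℝ)) := by
      push_cast
      have e1 : (1 + 27 / 8 / ((k : ℝ) - 27 / 8)) * (1 - 27 / 8 / (k + 1)) = 1 + x := by
        rw [hx, ← hy]
        have e2 : (1 : ℝ) + 27 / 8 / (y * (k + 1)) = (y * (k + 1) + 27 / 8) / (y * (k + 1)) := by
          have : y * ((k : ℝ) + 1) ≠ 0 := by positivity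
          rw [eq_div_iff this, add_mul, div_mul_cancel₀ _ this, one_mul]
        have e3 : (1 : ℝ) - 27 / 8 / (k + 1) = (k + 1 - 27 / 8) / (k + 1) := by
          rw [eq_div_iff hpos'.ne', sub_mul, div_mul_cancel₀ _ hpos'.ne', one_mul]
        have e4 : (1 : ℝ) + 27 / 8 / y = (y + 27 / 8) / y := by
          rw [eq_div_iff hy0.ne', add_mul, div_mul_cancel₀ _ hy0.ne', one_mul]
        rw [e2, e3, e4, div_mul_div_comm]
        congr 1
        rw [hky]
        ring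
      rw [e1]
      linarith
    have h6 : (0 : ℝ) ≤ 1 - 27 / 8 / ((k + 1 : ℕ) : ℝ) := by
      rw [h1]
      exact mul_nonneg h0 (by linarith)
    calc (1 - 27 / 8 / (k : ℝ)) ^ (k + 1) = (1 - 27 / 8 / (k : ℝ)) ^ (k + 1) * 1 := (mul_one _).symm
      _ ≤ (1 - 27 / 8 / (k : ℝ)) ^ (k + 1) *
            ((1 + 27 / 8 / (k - 27 / 8)) * (1 - 27 / 8 / ((k + 1 : ℕ) : ℝ))) :=
          mul_le_mul_of_nonneg_left h5 (by positivity)
      _ ≤ (1 - 27 / 8 / (k : ℝ)) ^ (k + 1) * ((1 + x) ^ (k + 1) *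
            (1 - 27 / 8 / ((k + 1 : ℕ) : ℝ))) :=
          mul_le_mul_of_nonneg_left (mul_le_mul_of_nonneg_right hb h6) (by positivity)
      _ = ((1 - 27 / 8 / (k : ℝ)) * (1 + x)) ^ (k + 1) *
            (1 - 27 / 8 / ((k + 1 : ℕ) : ℝ)) := by rw [mul_pow]; ring
      _ = (1 - 27 / 8 / ((k + 1 : ℕ) : ℝ)) ^ (k + 1 + 1) := by rw [← h1, ← pow_succ]

theorem pow_decr (n : ℕ) (hn : 72 ≤ n) : 9 * (n : ℝ) * (1 - 299 / 10000) ^ (n - 2) < n + 8 := by
  induction n, hn using Nat.le_induction with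
  | base => norm_num
  | succ n hn ih =>
    have hn' : (72 : ℝ) ≤ n := by exact_mod_cast hn
    have h1 : n + 1 - 2 = (n - 2) + 1 := by omega
    rw [h1, pow_succ]
    push_cast
    set y : ℝ := (1 - 299 / 10000) ^ (n - 2) with hy
    have h3 : (n : ℝ) * (9 * ((n : ℝ) + 1) * (y * (1 - 299 / 10000))) < n * ((n : ℝ) + 1 + 8) := by
      calc (n : ℝ) * (9 * ((n : ℝ) + 1) * (y * (1 - 299 / 10000)))
          = (9 * n * y) * ((n + 1) * (1 - 299 / 10000)) := by ring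
        _ < (n + 8) * ((n + 1) * (1 - 299 / 10000)) := by
            apply mul_lt_mul_of_pos_right ih
            nlinarith
        _ ≤ n * ((n : ℝ) + 1 + 8) := by nlinarith
    exact lt_of_mul_lt_mul_left h3 (by linarith)

theorem num_main (hn : 72 ≤ n) (d : Fin n → ℕ) (S : Finset (Fin n)) (hS : S.card = n - 2) (j : ℕ)
    (h : 8 * ∑ i ∈ S, d i ≤ 27 * (j + 1)) :
    9 * n * (box d S j).card < (n + 8) * (box d ∅ j).card := by
  have hn1 : 1 ≤ n := by omega
  have hβ : (0 : ℝ) < j + 1 := by positivity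
  set k := n - 2 with hk
  have hk70 : (70 : ℝ) ≤ k := by
    have : 70 ≤ k := by omega
    exact_mod_cast this
  have hk0 : (0 : ℝ) < k := by linarith
  have h1 := box_prod hn1 d j S
  set x : Fin n → ℝ := fun i => max 0 (1 - (d i : ℝ) / (j + 1)) with hx
  have hx0 : ∀ i, 0 ≤ x i := fun i => le_max_left _ _
  have h2 : ∀ i, x i ^ (n - 1) ≤ bq d j i := fun i => (bq_ge hn1 d j i).resolve_right (by omega)
  have hsum : (k : ℝ) - 27 / 8 ≤ ∑ i ∈ S, x i := by
    have h3 : ∑ i ∈ S, (1 - (d i : ℝ) / (j + 1)) ≤ ∑ i ∈ S, x i :=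
      Finset.sum_le_sum fun i _ => le_max_right _ _
    have h4 : ∑ i ∈ S, (1 - (d i : ℝ) / (j + 1)) = k - (∑ i ∈ S, (d i : ℝ)) / (j + 1) := by
      rw [Finset.sum_sub_distrib, Finset.sum_const, hS, ← Finset.sum_div]
      simp
    have h5 : (∑ i ∈ S, (d i : ℝ)) / (j + 1) ≤ 27 / 8 := by
      rw [div_le_iff₀ hβ]
      have h' : (8 : ℝ) * ∑ i ∈ S, (d i : ℝ) ≤ 27 * (j + 1) := by exact_mod_cast h
      linarith
    linarith
  have hmean := Real.pow_arith_mean_le_arith_mean_pow S (fun _ => (k : ℝ)⁻¹) x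
    (fun _ _ => by positivity) (by
      rw [Finset.sum_const, hS, nsmul_eq_mul]
      exact mul_inv_cancel₀ hk0.ne') (fun i _ => hx0 i) (n - 1)
  rw [← Finset.mul_sum, ← Finset.mul_sum] at hmean
  have h6 : 1 - 27 / 8 / (k : ℝ) ≤ (k : ℝ)⁻¹ * ∑ i ∈ S, x i := by
    have : 1 - 27 / 8 / (k : ℝ) = (k : ℝ)⁻¹ * (k - 27 / 8) := by
      field_simp
    rw [this]
    exact mul_le_mul_of_nonneg_left hsum (by positivity)
  have h7 : (0 : ℝ) ≤ 1 - 27 / 8 / k := by
    rw [sub_nonneg, div_le_one hk0]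
    linarith
  have h8 : (299 : ℝ) / 10000 ≤ (k : ℝ)⁻¹ * ∑ i ∈ S, x i ^ (n - 1) := by
    have h9 := pow_incr k (by omega)
    have h10 : k + 1 = n - 1 := by omega
    rw [h10] at h9
    exact (h9.trans (pow_le_pow_left₀ h7 h6 _)).trans hmean
  have h11 : (S.card : ℝ) * (299 / 10000) ≤ ∑ i ∈ S, bq d j i := by
    rw [hS]
    calc (k : ℝ) * (299 / 10000) ≤ k * ((k : ℝ)⁻¹ * ∑ i ∈ S, x i ^ (n - 1)) :=
          mul_le_mul_of_nonneg_left h8 hk0.le
      _ = ∑ i ∈ S, x i ^ (n - 1) := by rw [← mul_assoc, mul_inv_cancel₀ hk0.ne', one_mul]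
      _ ≤ _ := Finset.sum_le_sum fun i _ => h2 i
  have h12 := prod_le_pow S (bq d j) (fun i _ => bq_le_one hn1 d j i) (299 / 10000) (by norm_num) h11
  rw [hS] at h12
  have h13 := pow_decr n hn
  have h0 : (0 : ℝ) < (box d ∅ j).card := by exact_mod_cast box_pos hn1 d j
  have h14 : ((box d S j).card : ℝ) ≤ (box d ∅ j).card * (1 - 299 / 10000) ^ k :=
    h1.trans (mul_le_mul_of_nonneg_left h12 h0.le)
  have h17 : 9 * (n : ℝ) * (box d S j).card < (n + 8) * (box d ∅ j).card := by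
    calc 9 * (n : ℝ) * (box d S j).card
        ≤ 9 * n * ((box d ∅ j).card * (1 - 299 / 10000) ^ k) := by gcongr
      _ = (9 * n * (1 - 299 / 10000) ^ k) * (box d ∅ j).card := by ring
      _ < _ := mul_lt_mul_of_pos_right h13 h0
  exact_mod_cast h17

/-- the choice of the degrees -/
theorem num_beta {m : ℕ} (hm : 3 ≤ m) (d : Fin m → ℕ) (hd : ∀ i, m ≤ d i) :
    ∃ (α : ℕ) (k : Fin m), 3 * α + m ≤ ∑ i, d i + 3 ∧ (∀ i, d i + α + m ≤ ∑ i, d i + 1) ∧
      ∑ i ∈ Finset.univ.erase k, d i ≤ 3 * (α + 1) ∧ 2 ≤ α := by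
  classical
  have hne : (Finset.univ : Finset (Fin m)).Nonempty := ⟨⟨0, by omega⟩, Finset.mem_univ _⟩
  obtain ⟨j, -, hj⟩ := Finset.exists_max_image Finset.univ d hne
  have h1 : ∑ i, d i = d j + ∑ i ∈ Finset.univ.erase j, d i :=
    (Finset.add_sum_erase _ _ (Finset.mem_univ j)).symm
  have h2 : (m - 1) * m ≤ ∑ i ∈ Finset.univ.erase j, d i := by
    have h3 : (Finset.univ.erase j).card = m - 1 := by
      rw [Finset.card_erase_of_mem (Finset.mem_univ j), Finset.card_univ, Fintype.card_fin]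
    calc (m - 1) * m = ∑ _i ∈ Finset.univ.erase j, m := by rw [Finset.sum_const, h3, smul_eq_mul]
      _ ≤ _ := Finset.sum_le_sum fun i _ => hd i
  have h3 : 2 * m ≤ (m - 1) * m := Nat.mul_le_mul_right _ (by omega)
  have hdj := hd j
  set D := ∑ i, d i with hD
  set S := ∑ i ∈ Finset.univ.erase j, d i with hS
  refine ⟨min ((D + 3 - m) / 3) (S + 1 - m), j, ?_, ?_, ?_, ?_⟩
  · omega
  · intro i
    have := hj i (Finset.mem_univ i)
    omega
  · omega
  · omega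

end Geproci
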