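import Pool.Agent.Work.MP_efd9e3_ag.Generic
import Pool.Agent.Work.MP_efd9e3_ag.Bg.BiDim

/-! MODULE Sub (MP_efd9e3_ag/Bg), helper69.  A subset of the points which imposes the same conditions; the dimension count. -/

set_option autoImplicit false

open MvPolynomial

namespace Geproci

variable {K : Type*} [Field K] {n j α : ℕ}

universe u

theorem exists_sub {ι : Type u} [Fintype ι] (E : Submodule K (ι → K)) :
    ∃ (κ : Type u) (_ : Fintype κ) (a : κ → ι), Function.Injective a ∧
      Fintype.card κ = Module.finrank K E ∧ ∀ F ∈ E, (∀ k, F (a k) = 0) → F = 0 := by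
  classical
  let φ : ι → Module.Dual K E := fun i => (LinearMap.proj i).comp E.subtype
  obtain ⟨κ, a, ha, hspan, hli⟩ := exists_linearIndependent' K φ
  have hfin : Finite κ := Finite.of_injective a ha
  have hft : Fintype κ := Fintype.ofFinite κ
  have hinj : ∀ F ∈ E, (∀ k, F (a k) = 0) → F = 0 := by
    intro F hF h
    have h1 : ∀ ψ ∈ Submodule.span K (Set.range φ), ψ (⟨F, hF⟩ : E) = 0 := by
      rw [← hspan]
      intro ψ hψ
      induction hψ using Submodule.span_induction with
      | mem x hx =>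
        obtain ⟨k, rfl⟩ := hx
        exact h k
      | zero => rfl
      | add x y _ _ hx hy => rw [LinearMap.add_apply, hx, hy, add_zero]
      | smul c x _ hx => rw [LinearMap.smul_apply, hx, smul_zero]
    funext i
    exact h1 (φ i) (Submodule.subset_span ⟨i, rfl⟩)
  refine ⟨κ, hft, a, ha, le_antisymm ?_ ?_, hinj⟩
  · have h1 := hli.fintype_card_le_finrank
    rwa [Subspace.dual_finrank_eq] at h1
  · let R : E →ₗ[K] (κ → K) := LinearMap.pi fun k => φ (a k)
    have hR : Function.Injective R := by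
      rw [← LinearMap.ker_eq_bot, LinearMap.ker_eq_bot']
      intro F hF
      exact Subtype.ext (hinj F.1 F.2 fun k => congrFun hF k)
    have h1 := LinearMap.finrank_le_finrank_of_injective hR
    rwa [Module.finrank_fintype_fun_eq_card] at h1

variable {ι : Type u} {κ : Type u}

theorem evs_restrict (y : ι → Fin n → K) (a : κ → ι) (t : ℕ) :
    evs (fun k => y (a k)) t = (evs y t).map (LinearMap.funLeft K K a) := by
  ext F
  rw [mem_evs, Submodule.mem_map]
  constructor
  · rintro ⟨q, hq, h⟩
    exact ⟨fun i => eval (y i) q, (mem_evs _ _ _).2 ⟨q, hq, fun _ => rfl⟩, funext h⟩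
  · rintro ⟨G, hG, rfl⟩
    obtain ⟨q, hq, h⟩ := (mem_evs _ _ _).1 hG
    exact ⟨q, hq, fun k => h (a k)⟩

theorem restr_le (y : ι → Fin n → K) (a : κ → ι) (t : ℕ)
    (h : ∀ F ∈ evs y t, (∀ k, F (a k) = 0) → F = 0) :
    Module.finrank K (evs y t) ≤ Module.finrank K (evs (fun k => y (a k)) t) := by
  rw [evs_restrict y a t, ← LinearMap.range_domRestrict]
  refine le_of_eq (LinearMap.finrank_range_of_inj ?_).symm
  rw [← LinearMap.ker_eq_bot, LinearMap.ker_eq_bot']
  intro F hF
  exact Subtype.ext (h F.1 F.2 fun k => congrFun hF k)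

theorem restr_inj [Fintype ι] (y : ι → Fin n → K) (a : κ → ι) (t : ℕ)
    (h : Module.finrank K (evs y t) ≤ Module.finrank K (evs (fun k => y (a k)) t))
    (q : MvPolynomial (Fin n) K) (hq : q.IsHomogeneous t) (hz : ∀ k, eval (y (a k)) q = 0) (i : ι) :
    eval (y i) q = 0 := by
  rw [evs_restrict y a t, ← LinearMap.range_domRestrict] at h
  have h1 := LinearMap.finrank_range_add_finrank_ker ((LinearMap.funLeft K K a).domRestrict (evs y t))
  have h2 : Module.finrank K (LinearMap.ker ((LinearMap.funLeft K K a).domRestrict (evs y t))) = 0 := by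
    omega
  rw [Submodule.finrank_eq_zero] at h2
  have h3 : (⟨fun i => eval (y i) q, (mem_evs _ _ _).2 ⟨q, hq, fun _ => rfl⟩⟩ : evs y t) ∈
      LinearMap.ker ((LinearMap.funLeft K K a).domRestrict (evs y t)) := by
    rw [LinearMap.mem_ker]
    funext k
    exact hz k
  rw [h2, Submodule.mem_bot] at h3
  exact congrFun (congrArg Subtype.val h3) i

theorem num_dim (hn : 1 ≤ n) (H : ℕ) (hj : 9 * (j + 1) ≤ 8 * (α + 1))
    (hH : 9 * n * H < (n + 8) * (n - 1 + (j + 1)).choose (j + 1)) :
    (mon (n+1) j).card * (mon n (α+1)).card + H * (mon n α).card <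
      (mon (n+1) (j+1)).card * (mon n α).card := by
  have e1 := box_eq hn (fun _ => 0) α
  rw [box_empty hn, box_empty hn, ← card_mon hn, ← card_mon hn] at e1
  rw [← card_mon hn] at hH
  obtain ⟨N, rfl⟩ : ∃ N, n = N + 1 := ⟨n - 1, by omega⟩
  -- the relations between the binomial coefficients
  have e2 : (N + 1) * (mon (N+1+1) j).card = (mon (N+1) (j+1)).card * (j + 1) := by
    rw [card_mon (by omega), card_mon (by omega)]
    have h1 := Nat.choose_succ_right_eq (N + 1 + j) j
    have h2 : N + 1 + 1 - 1 + j = N + 1 + j := by omega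
    have h3 : N + 1 - 1 + (j + 1) = N + 1 + j := by omega
    have h4 : N + 1 + j - j = N + 1 := by omega
    rw [h2, h3, h1, h4, mul_comm]
  have e3 : (N + 1) * (mon (N+1+1) (j+1)).card = (mon (N+1) (j+1)).card * (N + 1 + (j + 1)) := by
    rw [card_mon (by omega), card_mon (by omega)]
    have h1 := Nat.add_one_mul_choose_eq (N + (j + 1)) N
    have h2 : N + 1 + 1 - 1 + (j + 1) = N + (j + 1) + 1 := by omega
    have h3 : N + 1 - 1 + (j + 1) = N + (j + 1) := by omega
    rw [h2, h3]
    have h4 : (N + (j + 1) + 1).choose (j + 1) = (N + (j + 1) + 1).choose (N + 1) := by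
      rw [show N + (j + 1) + 1 = (N + 1) + (j + 1) by ring, Nat.choose_symm_add]
    have h5 : (N + (j + 1)).choose (j + 1) = (N + (j + 1)).choose N := (Nat.choose_symm_add).symm
    rw [h4, h5]
    linarith
  set a := (mon (N+1) α).card with ha
  set a' := (mon (N+1) (α+1)).card with ha'
  set b := (mon (N+1) (j+1)).card with hb
  set c := (mon (N+1+1) j).card with hc
  set c' := (mon (N+1+1) (j+1)).card with hc'
  have hapos : 0 < a := by
    rw [ha, card_mon (by omega)]
    exact Nat.choose_pos (by omega)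
  have hbpos : 0 < b := by
    rw [hb, card_mon (by omega)]
    exact Nat.choose_pos (by omega)
  have key : 9 * (N + 1) * (α + 1) * (c * a' + H * a) < 9 * (N + 1) * (α + 1) * (c' * a) := by
    have h1 : 9 * (N + 1) * (α + 1) * (c * a' + H * a) =
        9 * (((N + 1) * c) * ((α + 1) * a')) + (9 * (N + 1) * H) * ((α + 1) * a) := by ring
    have h2 : 9 * (N + 1) * (α + 1) * (c' * a) = 9 * ((N + 1) * c') * ((α + 1) * a) := by ring
    rw [h1, h2, e1, e2, e3]
    have h3 : (9 * (N + 1) * H) * ((α + 1) * a) < ((N + 1 + 8) * b) * ((α + 1) * a) :=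
      Nat.mul_lt_mul_of_pos_right hH (by positivity)
    have h4 : 9 * (b * (j + 1) * ((α + (N + 1)) * a)) + ((N + 1 + 8) * b) * ((α + 1) * a) ≤
        9 * (b * (N + 1 + (j + 1))) * ((α + 1) * a) := by
      have h5 : 9 * (j + 1) * (α + (N + 1)) + (N + 1 + 8) * (α + 1) ≤ 9 * (N + 1 + (j + 1)) * (α + 1) := by
        nlinarith
      have h6 := Nat.mul_le_mul_right (b * a) h5
      calc 9 * (b * (j + 1) * ((α + (N + 1)) * a)) + ((N + 1 + 8) * b) * ((α + 1) * a)
          = (9 * (j + 1) * (α + (N + 1)) + (N + 1 + 8) * (α + 1)) * (b * a) := by ring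
        _ ≤ (9 * (N + 1 + (j + 1)) * (α + 1)) * (b * a) := h6
        _ = _ := by ring
    omega
  exact Nat.lt_of_mul_lt_mul_left key

end Geproci
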