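import Pool.Agent.Work.MP_efd9e3_ag.Gp.VFin
import Pool.Agent.Work.MP_efd9e3_ag.Bg.FtoA
import Pool.Agent.Work.MP_efd9e3_ag.Bg.Sub
import Pool.Agent.Work.MP_efd9e3_ag.Bg.Num

/-! MODULE BigMain (MP_efd9e3_ag/Bg), helper69.  There is no nondegenerate geproci set in `ℙⁿ` for `n ≥ 72`. -/

set_option autoImplicit false

open MvPolynomial

namespace Geproci

variable {K : Type*} [Field K] {n j α : ℕ}

universe u

/-- The existence of an invariant form vanishing on the points. -/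
theorem exists_A [IsAlgClosed K] [CharZero K] {ι : Type u} [Fintype ι] [Nonempty ι] (hn : 2 ≤ n)
    (z : ι → Fin (n+1) → K) (hz : Indep z) (g : MvPolynomial (Fin (n+1)) K) (hg0 : g ≠ 0)
    (hg : ∀ p : Fin (n+1) → K, eval p g ≠ 0 → p (Fin.last n) ≠ 0 ∧ Indep (fun i => proj p (z i)) ∧
      ∀ (t : ℕ) (p' : Fin (n+1) → K), Module.finrank K (evs (fun i => proj p' (z i)) t) ≤
        Module.finrank K (evs (fun i => proj p (z i)) t))
    (p : Fin (n+1) → K) (hp : eval p g ≠ 0) (hj : 9 * (j + 1) ≤ 8 * (α + 1))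
    (hH : 9 * n * Module.finrank K (evs (fun i => proj p (z i)) (j+1)) <
      (n + 8) * (n - 1 + (j + 1)).choose (j + 1)) :
    ∃ A : MvPolynomial (Fin (n+1) ⊕ Fin (n+1)) K, A ≠ 0 ∧ BiH α α A ∧ BInv A ∧ ∀ i, xp (z i) A = 0 := by
  classical
  have hinf : Infinite K := IsAlgClosed.instInfinite
  set H := Module.finrank K (evs (fun i => proj p (z i)) (j+1)) with hHdef
  obtain ⟨κ, hκ, a, ha, hcard, hE⟩ := exists_sub (evs (fun i => proj p (z i)) (j+1))
  have hr := restr_le (fun i => proj p (z i)) a (j+1) hE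
  have hza : Indep (fun k => z (a k)) :=
    ⟨fun k => hz.1 (a k), fun k k' hkk c => hz.2 (a k) (a k') (fun h => hkk (ha h)) c⟩
  obtain ⟨g₃, hg₃, hg₃'⟩ := generic hn (fun k => z (a k)) hza
  -- a general point of the hyperplane
  obtain ⟨p₁, hp₁⟩ : ∃ p₁, eval p₁ (g * g₃) ≠ 0 := by
    by_contra hcon
    push Not at hcon
    exact mul_ne_zero hg0 hg₃ (MvPolynomial.funext fun x => by rw [hcon x, map_zero])
  have hp₁g : eval p₁ g ≠ 0 := by
    rw [map_mul] at hp₁
    exact left_ne_zero_of_mul hp₁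
  obtain ⟨c, hc⟩ := exists_comb (fun i => proj p₁ (z i)) (hg p₁ hp₁g).2.1.1
  set l : Fin (n+1) → K := Fin.snoc (fun i => p₁ (Fin.last n) * c i)
    (- ∑ i, c i * p₁ (Fin.castSucc i)) with hl
  have hlx : ∀ x : Fin (n+1) → K, ∑ k, l k * x k = ∑ i, c i * proj p₁ x i := by
    intro x
    rw [Fin.sum_univ_castSucc, hl]
    simp only [Fin.snoc_castSucc, Fin.snoc_last, proj]
    rw [neg_mul, Finset.sum_mul, ← sub_eq_add_neg, ← Finset.sum_sub_distrib]
    exact Finset.sum_congr rfl fun i _ => by ring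
  have hlz : ∀ i, ∑ k, l k * z i k ≠ 0 := fun i => by rw [hlx]; exact hc i
  have hlp : ∑ k, l k * p₁ k = 0 := by
    rw [hlx]
    refine Finset.sum_eq_zero fun i _ => ?_
    rw [proj]
    ring
  have hl0 : l ≠ 0 := by
    intro h
    apply hlz (Classical.arbitrary ι)
    rw [h]
    simp
  obtain ⟨ψ, Q, hψ, hQ, hQ'⟩ := hyp_par l hl0
  obtain ⟨F, hF, hF0, hFi, hFz⟩ := exists_fam (j := j) (α := α) (by omega) ψ (fun k => z (a k))
    (by
      rw [hcard]
      exact num_dim (by omega) H hj hH)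
  have hall : ∀ i w, eval (z i) (fw F w) = 0 := by
    intro i
    set P : MvPolynomial (Fin n) K := ∑ b : mon (n+1) (j+1), C (∏ k, z i k ^ (b.1 k)) * F b with hP
    have hPe : ∀ w, eval w P = eval (z i) (fw F w) := by
      intro w
      rw [hP, map_sum, eval_fw]
      exact Finset.sum_congr rfl fun b _ => by rw [map_mul, eval_C, mul_comm]
    have hP0 : compL ψ (g * g₃) * P = 0 := by
      apply MvPolynomial.funext
      intro w
      rw [map_mul, eval_compL, map_zero, hPe]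
      by_cases hw : eval (ψ w) (g * g₃) = 0
      · rw [hw, zero_mul]
      · rw [map_mul] at hw
        have hwg := left_ne_zero_of_mul hw
        have hwg3 := right_ne_zero_of_mul hw
        obtain ⟨hwl, -, -⟩ := hg (ψ w) hwg
        have h1 : Module.finrank K (evs (fun i => proj (ψ w) (z i)) (j+1)) ≤
            Module.finrank K (evs (fun k => proj (ψ w) (z (a k))) (j+1)) :=
          ((hg p hp).2.2 (j+1) (ψ w)).trans (hr.trans ((hg₃' (ψ w) hwg3).2.2 (j+1) p))
        have h2 := restr_inj (fun i => proj (ψ w) (z i)) a (j+1) h1 (compL inc (fw F w))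
          (compL_hom _ _ _ (fw_hom F w)) (fun k => by
            rw [desc (fw F w) (j+1) (fw_hom F w) (ψ w) (hFi w), hFz, mul_zero]) i
        rw [desc (fw F w) (j+1) (fw_hom F w) (ψ w) (hFi w)] at h2
        rw [(mul_eq_zero.1 h2).resolve_left (pow_ne_zero _ hwl), mul_zero]
    have hc0 : compL ψ (g * g₃) ≠ 0 := by
      intro h0
      apply hp₁
      have h1 := eval_compL ψ (g * g₃) (Q p₁)
      rw [h0, map_zero, hQ' p₁ hlp] at h1
      exact h1.symm
    intro w
    rw [← hPe, (mul_eq_zero.1 hP0).resolve_left hc0, map_zero]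
  exact exists_inv l hl0 ψ Q hψ hQ hQ' F hF hF0 hFi z hall hlz

theorem big_aux [IsAlgClosed K] [CharZero K] {m : ℕ} (hm : 71 ≤ m) (Z : Finset (Fin (m+1+1) → K))
    (h0 : ∀ v ∈ Z, v ≠ 0) (hp : ∀ v ∈ Z, ∀ w ∈ Z, ∀ c : K, w = c • v → w = v)
    (hspan : Submodule.span K (Z : Set (Fin (m+1+1) → K)) = ⊤) :
    ∃ g : MvPolynomial (Fin (m+1+1)) K, g ≠ 0 ∧ ∀ p : Fin (m+1+1) → K, eval p g ≠ 0 →
      ∀ π : (Fin (m+1+1) → K) →ₗ[K] (Fin (m+1) → K), LinearMap.ker π = Submodule.span K {p} →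
      ∀ (f : Fin m → MvPolynomial (Fin (m+1)) K) (d : Fin m → ℕ),
        (∀ i, (f i).IsHomogeneous (d i)) →
        (Ideal.span (Set.range f) : Set (MvPolynomial (Fin (m+1)) K)) ≠
          {q | ∀ v ∈ Z, ∀ c : K, eval (c • π v) q = 0} := by
  classical
  let z : Z → Fin (m+1+1) → K := fun v => v.1
  have hz : Indep z := by
    refine ⟨fun v => h0 v.1 v.2, fun v v' hvv' c hc => hvv' ?_⟩
    exact (Subtype.ext (hp v.1 v.2 v'.1 v'.2 c hc)).symm
  have hne : Nonempty Z := by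
    by_contra hcon
    rw [nonempty_subtype, not_exists] at hcon
    have hZ : Z = ∅ := Finset.eq_empty_of_forall_notMem hcon
    rw [hZ] at hspan
    simp at hspan
  have hinf : Infinite K := IsAlgClosed.instInfinite
  obtain ⟨g₁, hg₁, hg₁'⟩ := exists_qsys (by omega) Z h0 hp hspan
  obtain ⟨g₂, hg₂, hg₂'⟩ := generic (by omega) z hz
  refine ⟨g₁ * g₂, mul_ne_zero hg₁ hg₂, fun p hpg π hπ f d hd hf => ?_⟩
  rw [map_mul] at hpg
  have hpg1 := left_ne_zero_of_mul hpg
  have hpg2 := right_ne_zero_of_mul hpg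
  obtain ⟨hpl, hind, hmax⟩ := hg₂' p hpg2
  obtain ⟨hdm, hcardZ, -, s, r, e, c, l, hs, hq⟩ := hg₁' p hpg1 π hπ f d hd hf
  have hy : Indep (fun v : Z => π (z v)) := main_indep p hpl π hπ z hind
  have hfy : (Ideal.span (Set.range f) : Set (MvPolynomial (Fin (m+1)) K)) = vanish (fun v : Z => π (z v)) := by
    rw [hf]
    ext q
    constructor
    · intro h v c
      exact h v.1 v.2 c
    · intro h v hv c
      exact h ⟨v, hv⟩ c
  have he : ∀ t, evs (fun v : Z => π (z v)) t = evs (fun i => proj p (z i)) t :=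
    fun t => evs_proj p hpl π hπ z t
  -- the bound for the collinear subsets
  have hcol : ∀ T : Finset Z, Module.finrank K (Submodule.span K (z '' (T : Set Z))) = 2 →
      ∃ j, T.card ≤ d j := by
    intro T hT
    obtain ⟨t₀, -, t₁, -, hne', hT'⟩ := two_gen z hz.1 hz.2 T hT
    refine col_bound (fun v : Z => π (z v)) hy f d hd hfy T t₀ t₁ hne' fun t ht => ?_
    obtain ⟨a, b, hab⟩ := hT' t ht
    refine ⟨a, b, ?_⟩
    show π (z t) = a • π (z t₀) + b • π (z t₁)
    rw [hab, map_add, map_smul, map_smul]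
  -- the numbers
  obtain ⟨α, k, hα1, hα2, hα3, hα4⟩ := num_beta (by omega) d hdm
  obtain ⟨j, hj1, hj2⟩ : ∃ j, 9 * (j + 1) ≤ 8 * (α + 1) ∧ 8 * (α + 1) < 9 * (j + 1 + 1) := by
    refine ⟨8 * (α + 1) / 9 - 1, ?_, ?_⟩ <;> omega
  set δ : Fin (m+1) → ℕ := Fin.snoc d 0 with hδ
  have hδ' : ∀ i : Fin m, δ i.castSucc = d i := fun i => by rw [hδ, Fin.snoc_castSucc]
  have hH1 := finrank_evs (fun v : Z => π (z v)) hy f d hd (fun i => by have := hdm i; omega) hfy δ hδ' (j+1)
  rw [he] at hH1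
  have hH2 := box_anti δ ((Finset.univ.erase k).map Fin.castSuccEmb) (Finset.univ.map Fin.castSuccEmb)
    (Finset.map_subset_map.2 (Finset.erase_subset _ _)) (j+1)
  have hH3 := num_main (n := m+1) (by omega) δ ((Finset.univ.erase k).map Fin.castSuccEmb) (by
    rw [Finset.card_map, Finset.card_erase_of_mem (Finset.mem_univ _), Finset.card_univ, Fintype.card_fin]
    omega) (j+1) (by
    rw [Finset.sum_map]
    have : ∑ i ∈ Finset.univ.erase k, δ (Fin.castSuccEmb i) = ∑ i ∈ Finset.univ.erase k, d i :=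
      Finset.sum_congr rfl fun i _ => hδ' i
    rw [this]
    omega)
  rw [box_empty (by omega)] at hH3
  obtain ⟨A, hA0, hAh, hAi, hAz⟩ := exists_A (j := j) (α := α) (by omega) z hz g₂ hg₂ hg₂' p hpg2 hj1 (by
    rw [hH1]
    refine lt_of_le_of_lt ?_ hH3
    exact Nat.mul_le_mul_left _ hH2)
  obtain ⟨m', rfl⟩ : ∃ m', m = m' + 1 := ⟨m - 1, by omega⟩
  have hK := k_main (K := K) m' Z (s+1) r e 0 α α z c l A (by omega) hq.toK hA0 hAh hAi hAz
    (by omega) (fun T hT => by
      obtain ⟨i, hi⟩ := hcol T hT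
      have := hα2 i
      omega)
  omega

end Geproci
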