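import Mathlib

/-! MODULE Box (MP_efd9e3_ag/Bg), helper69.  Counting exponent vectors with bounded entries. -/

set_option autoImplicit false

namespace Geproci

variable {n : ℕ}

/-- the exponent vectors `a` of degree `t` with `a i < d i` for `i ∈ S` -/
def box (d : Fin n → ℕ) (S : Finset (Fin n)) (t : ℕ) : Finset (Fin n →₀ ℕ) :=
  (Finset.finsuppAntidiag Finset.univ t).filter fun a => ∀ i ∈ S, a i < d i

theorem mem_box (d : Fin n → ℕ) (S : Finset (Fin n)) (t : ℕ) (a : Fin n →₀ ℕ) :
    a ∈ box d S t ↔ ∑ i, a i = t ∧ ∀ i ∈ S, a i < d i := by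
  simp [box, Finset.mem_finsuppAntidiag]

theorem box_empty (hn : 1 ≤ n) (d : Fin n → ℕ) (t : ℕ) :
    (box d ∅ t).card = (n - 1 + t).choose t := by
  have h1 : box d ∅ t = Finset.finsuppAntidiag Finset.univ t := by
    ext a
    simp [box]
  rw [h1, Finset.card_finsuppAntidiag_nat_eq_choose, Finset.card_univ, Fintype.card_fin]
  congr 1
  omega

theorem sum_add_single (a : Fin n →₀ ℕ) (k : Fin n) (c : ℕ) :
    ∑ i, (a + Finsupp.single k c) i = ∑ i, a i + c := by
  classical
  simp only [Finsupp.add_apply, Finset.sum_add_distrib]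
  congr 1
  rw [Finset.sum_eq_single k]
  · simp
  · intro b _ hb
    rw [Finsupp.single_apply, if_neg (Ne.symm hb)]
  · simp

theorem box_step (d : Fin n → ℕ) (S : Finset (Fin n)) (k : Fin n) (hk : k ∉ S) (t : ℕ) :
    (box d (insert k S) (t + d k)).card + (box d S t).card = (box d S (t + d k)).card := by
  classical
  have h1 : (box d S t).card = ((box d S (t + d k)).filter fun a => ¬ a k < d k).card := by
    refine Finset.card_bij (fun a _ => a + Finsupp.single k (d k)) ?_ ?_ ?_
    · intro a ha
      rw [mem_box] at ha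
      rw [Finset.mem_filter, mem_box]
      refine ⟨⟨by rw [sum_add_single, ha.1], fun i hi => ?_⟩, ?_⟩
      · have hik : k ≠ i := fun h => hk (h ▸ hi)
        rw [Finsupp.add_apply, Finsupp.single_apply, if_neg hik, add_zero]
        exact ha.2 i hi
      · rw [Finsupp.add_apply, Finsupp.single_eq_same]
        omega
    · intro a _ b _ hab
      exact add_right_cancel hab
    · intro b hb
      rw [Finset.mem_filter, mem_box] at hb
      obtain ⟨⟨hb1, hb2⟩, hb3⟩ := hb
      have hle : Finsupp.single k (d k) ≤ b := by
        intro i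
        rw [Finsupp.single_apply]
        split_ifs with h
        · subst h
          omega
        · exact Nat.zero_le _
      refine ⟨b - Finsupp.single k (d k), ?_, tsub_add_cancel_of_le hle⟩
      rw [mem_box]
      constructor
      · have h2 := sum_add_single (b - Finsupp.single k (d k)) k (d k)
        rw [tsub_add_cancel_of_le hle, hb1] at h2
        omega
      · intro i hi
        rw [Finsupp.tsub_apply]
        have := hb2 i hi
        omega
  have h2 : box d (insert k S) (t + d k) = (box d S (t + d k)).filter fun a => a k < d k := by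
    ext a
    rw [Finset.mem_filter, mem_box, mem_box, Finset.forall_mem_insert]
    tauto
  rw [h1, h2]
  exact Finset.card_filter_add_card_filter_not _

theorem box_low (d : Fin n → ℕ) (S : Finset (Fin n)) (k : Fin n) (t : ℕ) (ht : t < d k) :
    (box d (insert k S) t).card = (box d S t).card := by
  classical
  congr 1
  ext a
  rw [mem_box, mem_box, Finset.forall_mem_insert]
  constructor
  · rintro ⟨h1, h2, h3⟩
    exact ⟨h1, h3⟩
  · rintro ⟨h1, h2⟩
    refine ⟨h1, ?_, h2⟩
    have : a k ≤ ∑ i, a i := Finset.single_le_sum (fun i _ => Nat.zero_le (a i)) (Finset.mem_univ k)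
    omega

theorem box_mono (d : Fin n → ℕ) (S : Finset (Fin n)) (t : ℕ) :
    (t + 1) * (box d S (t + 1)).card ≤ (t + n) * (box d S t).card := by
  classical
  have h1 : ∑ a ∈ box d S (t + 1), ∑ i, a i = (t + 1) * (box d S (t + 1)).card := by
    rw [Finset.sum_congr rfl fun a ha => ((mem_box _ _ _ _).1 ha).1, Finset.sum_const, smul_eq_mul,
      mul_comm]
  have h2 : ∑ b ∈ box d S t, ∑ i, (b i + 1) = (t + n) * (box d S t).card := by
    rw [Finset.sum_congr rfl fun b hb => show ∑ i, (b i + 1) = t + n by
      rw [Finset.sum_add_distrib, ((mem_box _ _ _ _).1 hb).1]; simp, Finset.sum_const, smul_eq_mul,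
      mul_comm]
  rw [← h1, ← h2, Finset.sum_comm, Finset.sum_comm (s := box d S t)]
  refine Finset.sum_le_sum fun i _ => ?_
  have h3 : ∑ a ∈ box d S (t + 1), a i = ∑ a ∈ (box d S (t + 1)).filter (fun a => 0 < a i), a i := by
    symm
    apply Finset.sum_filter_of_ne
    intro a _ ha
    omega
  rw [h3]
  have h4 : ∑ a ∈ (box d S (t + 1)).filter (fun a => 0 < a i), a i =
      ∑ b ∈ ((box d S (t + 1)).filter (fun a => 0 < a i)).image (fun a => a - Finsupp.single i 1),
        (b i + 1) := by
    rw [Finset.sum_image]
    · refine Finset.sum_congr rfl fun a ha => ?_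
      rw [Finset.mem_filter] at ha
      rw [Finsupp.tsub_apply, Finsupp.single_eq_same]
      omega
    · intro a ha b hb hab
      rw [Finset.mem_coe, Finset.mem_filter] at ha hb
      have hle : ∀ c : Fin n →₀ ℕ, 0 < c i → Finsupp.single i 1 ≤ c := by
        intro c hc j
        rw [Finsupp.single_apply]
        split_ifs with h
        · subst h
          omega
        · exact Nat.zero_le _
      have hab' : a - Finsupp.single i 1 = b - Finsupp.single i 1 := hab
      rw [← tsub_add_cancel_of_le (hle a ha.2), hab', tsub_add_cancel_of_le (hle b hb.2)]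
  rw [h4]
  refine Finset.sum_le_sum_of_subset ?_
  intro b hb
  rw [Finset.mem_image] at hb
  obtain ⟨a, ha, rfl⟩ := hb
  rw [Finset.mem_filter, mem_box] at ha
  obtain ⟨⟨ha1, ha2⟩, ha3⟩ := ha
  have hle : Finsupp.single i 1 ≤ a := by
    intro j
    rw [Finsupp.single_apply]
    split_ifs with h
    · subst h
      omega
    · exact Nat.zero_le _
  rw [mem_box]
  constructor
  · have h2 := sum_add_single (a - Finsupp.single i 1) i 1
    rw [tsub_add_cancel_of_le hle, ha1] at h2
    omega
  · intro j hj
    rw [Finsupp.tsub_apply]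
    have := ha2 j hj
    omega

theorem box_eq (hn : 1 ≤ n) (d : Fin n → ℕ) (t : ℕ) :
    (t + 1) * (box d ∅ (t + 1)).card = (t + n) * (box d ∅ t).card := by
  rw [box_empty hn, box_empty hn]
  have h1 := Nat.add_one_mul_choose_eq (n - 1 + t) t
  have h2 : n - 1 + t + 1 = t + n := by omega
  have h3 : n - 1 + (t + 1) = t + n := by omega
  rw [h2] at h1
  rw [h3, h1, mul_comm]

theorem box_pos (hn : 1 ≤ n) (d : Fin n → ℕ) (t : ℕ) : 0 < (box d ∅ t).card := by
  rw [box_empty hn]
  exact Nat.choose_pos (by omega)

theorem box_ratio (hn : 1 ≤ n) (d : Fin n → ℕ) (S : Finset (Fin n)) (t j : ℕ) :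
    (box d S (t + j)).card * (box d ∅ t).card ≤ (box d S t).card * (box d ∅ (t + j)).card := by
  induction j with
  | zero => exact le_of_eq (by simp)
  | succ j ih =>
    have h1 := box_mono d S (t + j)
    have h2 := box_eq hn d (t + j)
    rw [← add_assoc]
    have h3 : (t + j + 1) * ((box d S (t + j + 1)).card * (box d ∅ t).card) ≤
        (t + j + 1) * ((box d S t).card * (box d ∅ (t + j + 1)).card) := by
      calc (t + j + 1) * ((box d S (t + j + 1)).card * (box d ∅ t).card)
          = ((t + j + 1) * (box d S (t + j + 1)).card) * (box d ∅ t).card := by ring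
        _ ≤ ((t + j + n) * (box d S (t + j)).card) * (box d ∅ t).card := Nat.mul_le_mul_right _ h1
        _ = (t + j + n) * ((box d S (t + j)).card * (box d ∅ t).card) := by ring
        _ ≤ (t + j + n) * ((box d S t).card * (box d ∅ (t + j)).card) := Nat.mul_le_mul_left _ ih
        _ = (box d S t).card * ((t + j + n) * (box d ∅ (t + j)).card) := by ring
        _ = (t + j + 1) * ((box d S t).card * (box d ∅ (t + j + 1)).card) := by rw [← h2]; ring
    exact Nat.le_of_mul_le_mul_left h3 (by omega)

end Geproci
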