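import Pool.Agent.Work.MP_efd9e3_ag.Bg.Box

/-! MODULE BoxR (MP_efd9e3_ag/Bg), helper69.  The probability that the parts of a composition are small. -/

set_option autoImplicit false

namespace Geproci

variable {n : ℕ}

/-- the proportion of the compositions of `β` with a large `i`-th part -/
noncomputable def bq (d : Fin n → ℕ) (β : ℕ) (i : Fin n) : ℝ :=
  if d i ≤ β then ((box d ∅ (β - d i)).card : ℝ) / (box d ∅ β).card else 0

theorem bq_le_one (hn : 1 ≤ n) (d : Fin n → ℕ) (β : ℕ) (i : Fin n) : bq d β i ≤ 1 := by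
  unfold bq
  split_ifs with h
  · have h0 : (0 : ℝ) < (box d ∅ β).card := by exact_mod_cast box_pos hn d β
    rw [div_le_one h0]
    have h1 := box_empty hn d (β - d i)
    have h2 := box_empty hn d β
    rw [h1, h2]
    have h3 : (n - 1 + (β - d i)).choose (β - d i) ≤ (n - 1 + β).choose β := by
      rw [← Nat.choose_symm_add, ← Nat.choose_symm_add]
      exact Nat.choose_le_choose _ (by omega)
    exact_mod_cast h3
  · exact zero_le_one

theorem box_prod (hn : 1 ≤ n) (d : Fin n → ℕ) (β : ℕ) (S : Finset (Fin n)) :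
    ((box d S β).card : ℝ) ≤ (box d ∅ β).card * ∏ i ∈ S, (1 - bq d β i) := by
  classical
  induction S using Finset.induction_on with
  | empty => simp
  | insert k S hk ih =>
    rw [Finset.prod_insert hk]
    have h0 : (0 : ℝ) < (box d ∅ β).card := by exact_mod_cast box_pos hn d β
    have hq : 0 ≤ 1 - bq d β k := by
      have := bq_le_one hn d β k
      linarith
    have h4 : ((box d (insert k S) β).card : ℝ) ≤ (box d S β).card * (1 - bq d β k) := by
      unfold bq
      split_ifs with h
      · obtain ⟨t, rfl⟩ := Nat.exists_eq_add_of_le' h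
        rw [Nat.add_sub_cancel]
        have h1 := box_step d S k hk t
        have h2 := box_ratio hn d S t (d k)
        have h1' : ((box d (insert k S) (t + d k)).card : ℝ) + (box d S t).card =
            (box d S (t + d k)).card := by exact_mod_cast h1
        have h2' : ((box d S (t + d k)).card : ℝ) * (box d ∅ t).card ≤
            (box d S t).card * (box d ∅ (t + d k)).card := by exact_mod_cast h2
        rw [mul_sub, mul_one, ← mul_div_assoc]
        have h3 : ((box d S (t + d k)).card : ℝ) * (box d ∅ t).card / (box d ∅ (t + d k)).card ≤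
            (box d S t).card := by
          rw [div_le_iff₀ h0]
          exact h2'
        linarith
      · rw [sub_zero, mul_one, box_low d S k β (by omega)]
    calc ((box d (insert k S) β).card : ℝ) ≤ (box d S β).card * (1 - bq d β k) := h4
      _ ≤ ((box d ∅ β).card * ∏ i ∈ S, (1 - bq d β i)) * (1 - bq d β k) :=
          mul_le_mul_of_nonneg_right ih hq
      _ = (box d ∅ β).card * ((1 - bq d β k) * ∏ i ∈ S, (1 - bq d β i)) := by ring

theorem choose_pow (m t β : ℕ) (h : t ≤ β) :
    (m + β).choose β * (t + 1) ^ m ≤ (m + t).choose t * (β + 1) ^ m := by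
  induction m with
  | zero => simp
  | succ m ih =>
    have e : ∀ s : ℕ, (m + 1) * (m + 1 + s).choose s = (m + 1 + s) * (m + s).choose s := by
      intro s
      have h1 := Nat.add_one_mul_choose_eq (m + s) m
      have h2 : (m + 1 + s).choose s = (m + s + 1).choose (m + 1) := by
        rw [show m + s + 1 = (m + 1) + s by ring, Nat.choose_symm_add]
      have h3 : (m + s).choose s = (m + s).choose m := (Nat.choose_symm_add).symm
      rw [h2, h3, show m + 1 + s = m + s + 1 by ring, h1]
      ring
    have h5 : (m + 1 + β) * (t + 1) ≤ (m + 1 + t) * (β + 1) := by nlinarith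
    have h6 : (m + 1) * ((m + 1 + β).choose β * (t + 1) ^ (m + 1)) ≤
        (m + 1) * ((m + 1 + t).choose t * (β + 1) ^ (m + 1)) := by
      calc (m + 1) * ((m + 1 + β).choose β * (t + 1) ^ (m + 1))
          = ((m + 1) * (m + 1 + β).choose β) * ((t + 1) ^ m * (t + 1)) := by ring
        _ = ((m + 1 + β) * (t + 1)) * ((m + β).choose β * (t + 1) ^ m) := by rw [e]; ring
        _ ≤ ((m + 1 + t) * (β + 1)) * ((m + t).choose t * (β + 1) ^ m) := Nat.mul_le_mul h5 ih
        _ = ((m + 1) * (m + 1 + t).choose t) * ((β + 1) ^ m * (β + 1)) := by rw [e]; ring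
        _ = (m + 1) * ((m + 1 + t).choose t * (β + 1) ^ (m + 1)) := by ring
    exact Nat.le_of_mul_le_mul_left h6 (by omega)

theorem bq_ge (hn : 1 ≤ n) (d : Fin n → ℕ) (β : ℕ) (i : Fin n) :
    (max 0 (1 - (d i : ℝ) / (β + 1))) ^ (n - 1) ≤ bq d β i ∨ (n = 1) := by
  by_cases hn1 : n = 1
  · exact Or.inr hn1
  left
  have hβ : (0 : ℝ) < β + 1 := by positivity
  unfold bq
  split_ifs with h
  · have h0 : (0 : ℝ) < (box d ∅ β).card := by exact_mod_cast box_pos hn d β
    have h1 : (1 : ℝ) - (d i : ℝ) / (β + 1) = ((β - d i : ℕ) + 1 : ℝ) / (β + 1) := by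
      rw [Nat.cast_sub h]
      field_simp
      ring
    have h2 : 0 ≤ ((β - d i : ℕ) + 1 : ℝ) / (β + 1) := by positivity
    rw [h1, max_eq_right h2, div_pow, div_le_div_iff₀ (by positivity) h0]
    have h3 := choose_pow (n - 1) (β - d i) β (Nat.sub_le _ _)
    rw [box_empty hn, box_empty hn]
    have h4 : (((n - 1 + β).choose β * (β - d i + 1) ^ (n - 1) : ℕ) : ℝ) ≤
        (((n - 1 + (β - d i)).choose (β - d i) * (β + 1) ^ (n - 1) : ℕ) : ℝ) := by exact_mod_cast h3
    push_cast at h4
    linarith
  · have h1 : (1 : ℝ) - (d i : ℝ) / (β + 1) ≤ 0 := by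
      rw [sub_nonpos, le_div_iff₀ hβ]
      have : β + 1 ≤ d i := by omega
      have h2 : ((β + 1 : ℕ) : ℝ) ≤ d i := by exact_mod_cast this
      push_cast at h2
      linarith
    rw [max_eq_left h1, zero_pow (by omega)]

end Geproci
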