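import Pool.Agent.Work.MP_efd9e3_ag.CardEq
import Pool.Agent.Work.MP_efd9e3_ag.SocMain
import Pool.Agent.Work.MP_efd9e3_ag.Bg.Box

/-! MODULE Hf (MP_efd9e3_ag/Bg), helper69.  The Hilbert function of a set of points which is a complete intersection. -/

set_option autoImplicit false

open MvPolynomial

namespace Geproci

variable {K : Type*} [Field K] {n m : ℕ} {ι : Type*}

theorem finrank_homog (hn : 1 ≤ n) (t : ℕ) :
    Module.finrank K (homogeneousSubmodule (Fin n) K t) = (n - 1 + t).choose t := by
  classical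
  have h0 : homogeneousSubmodule (Fin n) K t = restrictSupport K
      ((Finset.finsuppAntidiag (Finset.univ : Finset (Fin n)) t : Finset (Fin n →₀ ℕ)) : Set (Fin n →₀ ℕ)) := by
    have h1 : ((Finset.finsuppAntidiag (Finset.univ : Finset (Fin n)) t : Finset (Fin n →₀ ℕ)) : Set (Fin n →₀ ℕ)) =
        {d : Fin n →₀ ℕ | d.degree = t} := by
      ext d
      rw [Set.mem_ofPred_eq, Finset.mem_coe, Finset.mem_finsuppAntidiag, Finsupp.degree_eq_sum]
      simp
    rw [h1]
    exact homogeneousSubmodule_eq_finsupp_supported (σ := Fin n) (R := K) t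
  rw [h0, Module.finrank_eq_nat_card_basis (basisRestrictSupport K _)]
  rw [Nat.card_coe_set_eq, Set.ncard_coe_finset,
    Finset.card_finsuppAntidiag_nat_eq_choose, Finset.card_univ, Fintype.card_fin]
  congr 1
  omega

theorem hf_bot (t : ℕ) : hf (⊥ : Ideal (MvPolynomial (Fin n) K)) t =
    Module.finrank K (homogeneousSubmodule (Fin n) K t) := by
  unfold hf
  have hinj : Function.Injective (Ideal.Quotient.mkₐ K (⊥ : Ideal (MvPolynomial (Fin n) K))).toLinearMap := by
    rw [← LinearMap.ker_eq_bot, LinearMap.ker_eq_bot']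
    intro u hu
    have hu' : Ideal.Quotient.mk (⊥ : Ideal (MvPolynomial (Fin n) K)) u = 0 := hu
    rw [Ideal.Quotient.eq_zero_iff_mem] at hu'
    exact hu'
  exact (LinearEquiv.finrank_eq (Submodule.equivMapOfInjective _ hinj _)).symm

/-- the Hilbert function of a regular sequence -/
theorem hf_box (d : Fin m → ℕ) (hn : 1 ≤ n) (X : Fin m → MvPolynomial (Fin n) K)
    (hX : ∀ i, (X i).IsHomogeneous (d i)) (hR : Reg X) (φ : Fin m ↪ Fin n) (δ : Fin n → ℕ)
    (hδ : ∀ i, δ (φ i) = d i) (T : Finset (Fin m)) :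
    ∀ t, hf (idl X T) t = (box δ (T.map φ) t).card := by
  classical
  induction T using Finset.induction_on with
  | empty =>
    intro t
    have h1 : idl X ∅ = ⊥ := by
      unfold idl
      rw [Finset.coe_empty, Set.image_empty, Ideal.span_empty]
    rw [h1, hf_bot, finrank_homog hn, Finset.map_empty, box_empty hn]
  | insert k T hk ih =>
    intro t
    rw [idl_insert, Finset.map_insert]
    have hk' : φ k ∉ T.map φ := by
      rw [Finset.mem_map']
      exact hk
    rcases Nat.lt_or_ge t (d k) with h | h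
    · rw [hf_low X d hX T (X k) (d k) (hX k) t h, ih, box_low δ _ (φ k) t (by rw [hδ]; exact h)]
    · obtain ⟨u, rfl⟩ := Nat.exists_eq_add_of_le' h
      have h1 := hf_step X d hX T (X k) (d k) (hX k) (hR T k hk) u
      have h2 := box_step δ (T.map φ) (φ k) hk' u
      rw [hδ] at h2
      rw [ih, ih] at h1
      omega

/-- the number of conditions imposed by a complete intersection of points on the forms of degree `t` -/
theorem finrank_evs [IsAlgClosed K] [Fintype ι] [Nonempty ι] (y : ι → Fin (m+1) → K)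
    (hy : Indep y)
    (f : Fin m → MvPolynomial (Fin (m+1)) K) (d : Fin m → ℕ) (hd : ∀ i, (f i).IsHomogeneous (d i))
    (hd1 : ∀ i, 1 ≤ d i)
    (hf : (Ideal.span (Set.range f) : Set (MvPolynomial (Fin (m+1)) K)) = vanish y)
    (δ : Fin (m+1) → ℕ) (hδ : ∀ i : Fin m, δ i.castSucc = d i) (t : ℕ) :
    Module.finrank K (evs y t) = (box δ (Finset.univ.map Fin.castSuccEmb) t).card := by
  have hinf : Infinite K := IsAlgClosed.instInfinite
  obtain ⟨c, hc⟩ := exists_comb y hy.1
  set l : MvPolynomial (Fin (m+1)) K := ∑ j, C (c j) * MvPolynomial.X j with hl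
  have hl1 : l.IsHomogeneous 1 := IsHomogeneous.sum _ _ _ fun j _ => isHomogeneous_C_mul_X _ _
  have hle : ∀ x : Fin (m+1) → K, eval x l = ∑ j, c j * x j := by
    intro x; simp [hl]
  have hly : ∀ z, eval (y z) l ≠ 0 := fun z => by rw [hle]; exact hc z
  have hmem : ∀ q, q ∈ idl f Finset.univ ↔ q ∈ vanish y := by
    intro q; rw [idl_univ, ← hf]; rfl
  set Y : Fin (m+1) → MvPolynomial (Fin (m+1)) K := Fin.cons l f with hY
  set e : Fin (m+1) → ℕ := Fin.cons 1 d with he
  have hYe : ∀ i, (Y i).IsHomogeneous (e i) := by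
    intro i
    refine Fin.cases ?_ (fun i => ?_) i
    · simpa [hY, he] using hl1
    · simpa [hY, he] using hd i
  have he1 : ∀ i, 1 ≤ e i := by
    intro i
    refine Fin.cases ?_ (fun i => ?_) i
    · simp [he]
    · simpa [he] using hd1 i
  have hYi : idl Y Finset.univ = idl f Finset.univ ⊔ Ideal.span {l} := by
    rw [idl_univ, idl_univ, hY, Fin.range_cons, Ideal.span_insert, sup_comm]
  have hFull : Full (idl Y Finset.univ) := by
    apply full_of_zero
    intro x hx
    have h1 : ∀ q ∈ vanish y, eval x q = 0 := by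
      intro q hq
      apply hx
      rw [hYi]
      exact Ideal.mem_sup_left ((hmem q).mpr hq)
    obtain ⟨z, a, rfl⟩ := zeros_vanish y hy.1 x h1
    have h2 : eval (a • y z) l = 0 := by
      apply hx
      rw [hYi]
      exact Ideal.mem_sup_right (Ideal.mem_span_singleton_self l)
    rw [eval_smul_of_homog l 1 hl1, pow_one] at h2
    rcases mul_eq_zero.mp h2 with h3 | h3
    · rw [h3, zero_smul]
    · exact absurd h3 (hly z)
  obtain ⟨hR, -⟩ := soc_main Y e hYe he1 hFull
  have hYs : ∀ i : Fin m, Y i.succ = f i := fun i => by rw [hY, Fin.cons_succ]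
  have hRf : Reg f := by
    intro T i hi u hu
    have h1 : ∀ T : Finset (Fin m), idl Y (T.map (Fin.succEmb m)) = idl f T := by
      intro T
      unfold idl
      congr 1
      ext q
      simp only [Set.mem_image, Finset.mem_coe, Finset.mem_map]
      constructor
      · rintro ⟨x, ⟨a, ha, rfl⟩, rfl⟩
        exact ⟨a, ha, (hYs a).symm⟩
      · rintro ⟨a, ha, rfl⟩
        exact ⟨a.succ, ⟨a, ha, rfl⟩, hYs a⟩
    have h2 := hR (T.map (Fin.succEmb m)) i.succ (by
      rw [Finset.mem_map]
      rintro ⟨a, ha, hai⟩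
      have : a = i := Fin.succ_injective _ hai
      rw [this] at ha
      exact hi ha) u
    rw [h1, hYs] at h2
    exact h2 hu
  rw [← hf_box d (by omega) f hd hRf Fin.castSuccEmb δ hδ Finset.univ t]
  symm
  unfold Geproci.hf evs
  apply finrank_map_eq_of_ker
  intro v hv
  have hv' : v.IsHomogeneous t := (mem_homogeneousSubmodule _ _).mp hv
  change Ideal.Quotient.mk _ v = 0 ↔ _
  rw [Ideal.Quotient.eq_zero_iff_mem, hmem]
  constructor
  · intro h
    funext z
    have := h z 1
    rw [one_smul] at this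
    simpa [aeval_eq_eval] using this
  · intro h z a
    have := congrFun h z
    have h3 : eval (y z) v = 0 := by simpa [aeval_eq_eval] using this
    rw [eval_smul_of_homog v t hv', h3, mul_zero]

theorem box_anti (δ : Fin n → ℕ) (S T : Finset (Fin n)) (h : S ⊆ T) (t : ℕ) :
    (box δ T t).card ≤ (box δ S t).card := by
  apply Finset.card_le_card
  intro a ha
  rw [mem_box] at ha ⊢
  exact ⟨ha.1, fun i hi => ha.2 i (h hi)⟩

end Geproci
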